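import Pool.Agent.UCH.StmtsE
import Pool.Agent.Helper19_QMK.RGS

/-!
# Squad UCH, row RG3: the germ over the algebraic closure, with the full description of its elements
(copy of the proof of RG2 by helper88)
-/

set_option autoImplicit false

namespace Pool.Agent.UCH.H15

open Pool.Agent.LCI Pool.Agent.DFO Pool.Agent.QMA Pool.Agent.QMK Pool.Agent.QMK.H19
open scoped BigOperators

theorem rg3 (rga : RgaStmt) : Rg3Stmt := by
  classical
  intro k R K kb K' _ _ _ _ _ _ _ _ _ _ _ _ _ _ _ _ _ _ _ n F F' m v v' hB hG hC hE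
  obtain ⟨hz, hnn, hres, hmm⟩ := rga k R K kb K' m v v' hG hC hE
  have hinj : Function.Injective (inc R K K') :=
    (algebraMap K K').injective.comp (IsFractionRing.injective R K)
  have hinc0 : ∀ f : R, f ≠ 0 → inc R K K' f ≠ 0 := fun f hf h =>
    hf (hinj (by rw [h, map_zero]))
  have hvinc : ∀ f : R, f ≠ 0 → v'.v (inc R K K' f) = v.v (algebraMap R K f) := fun f hf =>
    hE _ (fun h => hf (IsFractionRing.injective R K (by rw [h, map_zero])))
  have hUn : ∀ f : R, f ∉ m → Un v' (inc R K K' f) := by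
    intro f hf
    have hf0 : f ≠ 0 := by
      rintro rfl
      exact hf m.zero_mem
    exact ⟨hinc0 f hf0, by rw [hvinc f hf0, hz f hf]⟩
  have hPm : ∀ f : R, f ∈ m → Pos v' (inc R K K' f) := by
    intro f hf
    by_cases hf0 : f = 0
    · left
      rw [hf0, map_zero]
    · right
      rw [hvinc f hf0]
      exact hC.2 f hf hf0
  set A := R1 k R K kb K' with hA
  set S := Sloc v' A with hS
  have hincS : ∀ f : R, inc R K K' f ∈ S := fun f => le_Sloc (inc_mem_R1 f)
  let φ : R →+* S := (inc R K K').codRestrict S hincS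
  have hφ : ∀ f : R, ((φ f : S) : K') = inc R K K' f := fun f => rfl
  -- the ideal
  have hM : ∀ x : S, x ∈ Ideal.map φ m ↔ Pos v' (x : K') := by
    intro x
    constructor
    · let M0 : Ideal S :=
        { carrier := {x | Pos v' (x : K')}
          add_mem' := by
            intro a b ha hb
            exact Pos.add ha hb
          zero_mem' := Pos.zero
          smul_mem' := by
            intro a b hb
            exact Pos.mul_left (nn_Sloc hnn a.2) hb }
      have h1 : Ideal.map φ m ≤ M0 := by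
        rw [Ideal.map_le_iff_le_comap]
        intro f hf
        exact hPm f hf
      intro hx
      exact h1 hx
    · intro hx
      obtain ⟨s, hs, hus, hsx⟩ := x.2
      have hnnS : Nn v' s := Or.inr (le_of_eq hus.2.symm)
      obtain ⟨t, ht, ht0, htv, N, b, μ, hbμ, hsum⟩ := hmm _ hsx (Pos.mul_left hnnS hx)
      have hut : Un v' t := ⟨ht0, htv⟩
      have huts : Un v' (t * s) := hut.mul hus
      have hB1 : ∀ j, (t * s)⁻¹ * b j ∈ S := by
        intro j
        refine ⟨t * s, A.mul_mem ht hs, huts, ?_⟩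
        rw [← mul_assoc, mul_inv_cancel₀ huts.1, one_mul]
        exact (hbμ j).1
      have hx2 : x = ∑ j, (⟨(t * s)⁻¹ * b j, hB1 j⟩ : S) * φ (μ j) := by
        apply Subtype.ext
        have h3 : ((∑ j, (⟨(t * s)⁻¹ * b j, hB1 j⟩ : S) * φ (μ j) : S) : K')
            = ∑ j, ((t * s)⁻¹ * b j) * inc R K K' (μ j) := by
          rw [AddSubmonoidClass.coe_finsetSum]
          rfl
        rw [h3]
        have h4 : ∑ j, ((t * s)⁻¹ * b j) * inc R K K' (μ j)
            = (t * s)⁻¹ * ∑ j, b j * algebraMap K K' (algebraMap R K (μ j)) := by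
          rw [Finset.mul_sum]
          refine Finset.sum_congr rfl fun j _ => ?_
          rw [mul_assoc]
          rfl
        rw [h4, ← hsum]
        field_simp [huts.1, hut.1, hus.1]
      rw [hx2]
      exact Ideal.sum_mem _ fun j _ => Ideal.mul_mem_left _ _ (Ideal.mem_map_of_mem φ (hbμ j).2)
  -- the fraction field
  have hfr : ∀ y : K', ∃ b : R, b ≠ 0 ∧ inc R K K' b * y ∈ A := by
    intro y
    refine Algebra.adjoin_induction (p := fun y _ => ∃ b : R, b ≠ 0 ∧ inc R K K' b * y ∈ A)
      ?_ ?_ ?_ ?_ (hB.gen y)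
    · rintro _ ⟨c, rfl⟩
      refine ⟨1, one_ne_zero, ?_⟩
      rw [map_one, one_mul]
      exact A.algebraMap_mem c
    · intro x
      obtain ⟨a, b, hb, rfl⟩ := IsFractionRing.div_surjective (A := R) x
      have hb0 : b ≠ 0 := nonZeroDivisors.ne_zero hb
      refine ⟨b, hb0, ?_⟩
      have h1 : inc R K K' b * algebraMap K K' (algebraMap R K a / algebraMap R K b)
          = inc R K K' a := by
        rw [map_div₀]
        exact mul_div_cancel₀ _ (hinc0 b hb0)
      rw [h1]
      exact inc_mem_R1 a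
    · rintro x y _ _ ⟨b, hb, hbx⟩ ⟨c, hc, hcy⟩
      refine ⟨b * c, mul_ne_zero hb hc, ?_⟩
      have h1 : inc R K K' (b * c) * (x + y)
          = inc R K K' c * (inc R K K' b * x) + inc R K K' b * (inc R K K' c * y) := by
        rw [map_mul]
        ring
      rw [h1]
      exact A.add_mem (A.mul_mem (inc_mem_R1 c) hbx) (A.mul_mem (inc_mem_R1 b) hcy)
    · rintro x y _ _ ⟨b, hb, hbx⟩ ⟨c, hc, hcy⟩
      refine ⟨b * c, mul_ne_zero hb hc, ?_⟩
      have h1 : inc R K K' (b * c) * (x * y) = (inc R K K' b * x) * (inc R K K' c * y) := by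
        rw [map_mul]
        ring
      rw [h1]
      exact A.mul_mem hbx hcy
  have hFR : IsFractionRing S K' := by
    haveI : FaithfulSMul S K' := (faithfulSMul_iff_algebraMap_injective S K').2
      Subtype.val_injective
    refine IsFractionRing.of_field S K' fun z => ?_
    obtain ⟨b, hb, hbz⟩ := hfr z
    refine ⟨⟨_, le_Sloc hbz⟩, ⟨_, hincS b⟩, ?_⟩
    change z = (inc R K K' b * z) / inc R K K' b
    rw [mul_div_cancel_left₀ _ (hinc0 b hb)]
  -- the residues
  have hPA : ∀ f ∈ A, ∃ c : kb, Pos v' (f - algebraMap kb K' c) := by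
    intro f hf
    obtain ⟨c, hc⟩ := hres f hf
    refine ⟨c, ?_⟩
    rcases hc with hc | hc
    · left
      rw [hc, sub_self]
    · exact Or.inr hc
  have hresS : ∀ f : S, ∃ c : kb, f - algebraMap kb S c ∈ Ideal.map φ m := by
    intro f
    obtain ⟨s, hs, hus, hsf⟩ := f.2
    obtain ⟨α, hα⟩ := hPA _ hsf
    obtain ⟨σ, hσ⟩ := hPA _ hs
    have hσ0 : σ ≠ 0 := by
      rintro rfl
      rw [map_zero, sub_zero] at hσ
      exact hus.not_pos hσ
    refine ⟨α / σ, ?_⟩
    rw [hM]
    have h0 : (algebraMap kb K' σ) ≠ 0 := (map_ne_zero _).2 hσ0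
    have hu : Un v' (s * algebraMap kb K' σ) := hus.mul (Un.const hσ0)
    refine Pos.of_mul hu ?_
    have h1 : (((f - algebraMap kb S (α / σ) : S)) : K')
        = (f : K') - algebraMap kb K' α / algebraMap kb K' σ := by
      rw [← map_div₀]
      rfl
    have h2 : s * algebraMap kb K' σ * ((f : K') - algebraMap kb K' α / algebraMap kb K' σ)
        = algebraMap kb K' σ * (s * (f : K') - algebraMap kb K' α)
          - algebraMap kb K' α * (s - algebraMap kb K' σ) := by
      field_simp
      ring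
    rw [h1, h2]
    exact (Pos.mul_left (Nn.const σ) hα).sub (Pos.mul_left (Nn.const α) hσ)
  -- the finitely generated part
  obtain ⟨R₀, hR₀, hden⟩ := hG.fg
  obtain ⟨T, hT⟩ := hR₀
  let R₀' : Subalgebra kb S := Algebra.adjoin kb (φ '' (T : Set R))
  have hR₀' : R₀'.FG := by
    refine ⟨T.image φ, ?_⟩
    rw [Finset.coe_image]
  have hsub : ∀ f ∈ R₀, φ f ∈ R₀' := by
    intro f hf
    rw [← hT] at hf
    refine Algebra.adjoin_induction (p := fun f _ => φ f ∈ R₀') ?_ ?_ ?_ ?_ hf
    · intro x hx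
      exact Algebra.subset_adjoin ⟨x, hx, rfl⟩
    · intro c
      have h1 : φ (algebraMap k R c) = algebraMap kb S (algebraMap k kb c) := by
        apply Subtype.ext
        exact inc_const c
      rw [h1]
      exact R₀'.algebraMap_mem _
    · intro x y _ _ hx hy
      rw [map_add]
      exact R₀'.add_mem hx hy
    · intro x y _ _ hx hy
      rw [map_mul]
      exact R₀'.mul_mem hx hy
  haveI hmprime : m.IsPrime := hG.max.isPrime
  have hclear : ∀ a ∈ A, ∃ t ∈ R₀, t ∉ m ∧ ∃ z ∈ R₀', ((z : S) : K') = inc R K K' t * a := by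
    intro a ha
    refine Algebra.adjoin_induction
      (p := fun a _ => ∃ t ∈ R₀, t ∉ m ∧ ∃ z ∈ R₀', ((z : S) : K') = inc R K K' t * a)
      ?_ ?_ ?_ ?_ ha
    · rintro _ ⟨f, rfl⟩
      obtain ⟨s, hs, hsm, hsf⟩ := hden f
      refine ⟨s, hs, hsm, φ (s * f), hsub _ hsf, ?_⟩
      rw [hφ, map_mul]
      rfl
    · intro c
      refine ⟨1, R₀.one_mem, (Ideal.ne_top_iff_one m).1 hG.max.ne_top, algebraMap kb S c,
        R₀'.algebraMap_mem _, ?_⟩
      rw [map_one, one_mul]
      rfl
    · rintro x y _ _ ⟨t, ht, htm, z, hz1, hz2⟩ ⟨u, hu, hum, w, hw1, hw2⟩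
      refine ⟨t * u, R₀.mul_mem ht hu, ?_, φ u * z + φ t * w, ?_, ?_⟩
      · intro h
        rcases hmprime.mem_or_mem h with h | h
        · exact htm h
        · exact hum h
      · exact R₀'.add_mem (R₀'.mul_mem (hsub u hu) hz1) (R₀'.mul_mem (hsub t ht) hw1)
      · have h1 : ((φ u * z + φ t * w : S) : K')
            = inc R K K' u * (z : K') + inc R K K' t * (w : K') := rfl
        rw [h1, hz2, hw2, map_mul]
        ring
    · rintro x y _ _ ⟨t, ht, htm, z, hz1, hz2⟩ ⟨u, hu, hum, w, hw1, hw2⟩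
      refine ⟨t * u, R₀.mul_mem ht hu, ?_, z * w, R₀'.mul_mem hz1 hw1, ?_⟩
      · intro h
        rcases hmprime.mem_or_mem h with h | h
        · exact htm h
        · exact hum h
      · have h1 : ((z * w : S) : K') = (z : K') * (w : K') := rfl
        rw [h1, hz2, hw2, map_mul]
        ring
  refine ⟨S, inferInstance, inferInstance, inferInstance, inferInstance, inferInstance, hFR,
    φ, Ideal.map φ m, fun f => rfl, rfl, ⟨?_, hresS, R₀', hR₀', ?_⟩, ?_, ?_, ?_⟩
  · intro h
    exact Un.one.not_pos ((hM 1).1 h)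
  · intro f
    obtain ⟨s, hs, hus, hsf⟩ := f.2
    obtain ⟨t, ht, htm, z, hz1, hz2⟩ := hclear _ hsf
    obtain ⟨u, hu, hum, w, hw1, hw2⟩ := hclear _ hs
    refine ⟨φ t * w, R₀'.mul_mem (hsub t ht) hw1, ?_, ?_⟩
    · rw [hM]
      have h1 : ((φ t * w : S) : K') = inc R K K' t * (inc R K K' u * s) := by
        rw [← hw2]
        rfl
      rw [h1]
      exact ((hUn t htm).mul ((hUn u hum).mul hus)).not_pos
    · have h1 : φ t * w * f = φ u * z := by
        apply Subtype.ext
        have h2 : ((φ t * w * f : S) : K') = inc R K K' t * (w : K') * (f : K') := rfl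
        have h3 : ((φ u * z : S) : K') = inc R K K' u * (z : K') := rfl
        rw [h2, h3, hw2, hz2]
        ring
      rw [h1]
      exact R₀'.mul_mem (hsub u hu) hz1
  · constructor
    · intro f hf
      have hf0 : (f : K') ≠ 0 := fun h => hf (Subtype.ext h)
      exact (nn_Sloc hnn f.2).resolve_left hf0
    · intro f hf hf0
      have hf0 : (f : K') ≠ 0 := fun h => hf0 (Subtype.ext h)
      exact ((hM f).1 hf).resolve_left hf0
  · intro x
    obtain ⟨s, hs, hus, hsx⟩ := x.2
    refine ⟨s * (x : K'), hsx, s, hs, hus.1, hus.2, ?_⟩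
    change (x : K') = s * (x : K') / s
    rw [mul_div_cancel_left₀ _ hus.1]
  · intro a ha s hs hs0 hsv
    have hx : a / s ∈ S := by
      refine ⟨s, hs, ⟨hs0, hsv⟩, ?_⟩
      have h1 : s * (a / s) = a := by
        field_simp
      rw [h1]
      exact ha
    exact ⟨⟨a / s, hx⟩, rfl⟩

end Pool.Agent.UCH.H15
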